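import Pool.Agent.Helper51_Pack.C8

/-!
# PACK module C3
-/

namespace Pool.Agent.Helper51_Pack

open MeasureTheory Pool.Agent.Helper2_Pack

theorem NearCell.mono {e e' : ℝ} (h : e ≤ e') {a : ℂ} {g : Motion} (hn : NearCell e a g) :
    NearCell e' a g := by
  obtain ⟨h1, h2, k, hk, h3⟩ := hn
  exact ⟨h1.trans h, h2.trans h, k, hk, h3.trans h⟩

/-- the centre of a piece -/
noncomputable def ctr (g : Motion) : ℂ := g.app ⟨1 / 2, 1 / 2⟩

theorem Sq_norm {q : ℝ} {w z : ℂ} (h : Sq q w z) : ‖z - w‖ ≤ q := by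
  have h1 := Complex.norm_le_abs_re_add_abs_im (z - w)
  rw [Complex.sub_re, Complex.sub_im] at h1
  obtain ⟨h2, h3⟩ := h
  linarith only [h1, h2, h3]

theorem disc_core {q s : ℝ} {g : Motion} {w : ℂ} (hs : 3 * q ≤ s)
    (h : ‖w - ctr g‖ < 1 / 2 - s) : ∀ z, Sq q w z → InCore q g z := by
  intro z hz
  have h1 : ‖z - ctr g‖ < 1 / 2 - 2 * q := by
    have : z - ctr g = (z - w) + (w - ctr g) := by ring
    rw [this]
    refine lt_of_le_of_lt (norm_add_le _ _) ?_
    have := Sq_norm hz
    linarith only [hs, h, this]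
  have h2 : (starRingEnd ℂ g.u) * (z - g.v) = (starRingEnd ℂ g.u) * (z - ctr g) + ⟨1 / 2, 1 / 2⟩ := by
    unfold ctr Motion.app
    have := g.conj_mul
    linear_combination (⟨1 / 2, 1 / 2⟩ : ℂ) * this
  have h3 : ‖(starRingEnd ℂ g.u) * (z - ctr g)‖ = ‖z - ctr g‖ := by
    rw [norm_mul, Complex.norm_conj, g.unit, one_mul]
  have h4 := Complex.abs_re_le_norm ((starRingEnd ℂ g.u) * (z - ctr g))
  have h5 := Complex.abs_im_le_norm ((starRingEnd ℂ g.u) * (z - ctr g))
  rw [h3] at h4 h5
  rw [abs_le] at h4 h5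
  unfold InCore
  rw [h2, Complex.add_re, Complex.add_im]
  refine ⟨?_, ?_, ?_, ?_⟩ <;> simp only <;> linarith only [h1, h4.1, h4.2, h5.1, h5.2]

/-- a disc in the cell of another piece -/
theorem avoid_cell (h4 : C4Stmt) (h7 : C7Stmt) {q e s : ℝ} {G : Layout} (p : Packing q G)
    (hG : G.OK) (hq : Small q G) (he0 : 0 ≤ e) (he : e ≤ 1 / 200) (hs : s = 3 * q + 2 * e)
    {i j : Cell G} (hij : i ≠ j) {a w : ℂ} (hn : NearCell e a (p.g j))
    (h1 : s ≤ (w - a).re) (h2 : (w - a).re ≤ 1 - s) (h3 : s ≤ (w - a).im)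
    (h5 : (w - a).im ≤ 1 - s) : 1 / 2 - s ≤ ‖w - ctr (p.g i)‖ := by
  by_contra hcon
  rw [not_le] at hcon
  obtain ⟨hq1, -, hq2⟩ := q_le hq
  have hq0 := hq.pos
  refine h4 q G p hG hq i j hij w ⟨disc_core (by linarith only [he0, hs]) hcon, fun z hz => ?_⟩
  obtain ⟨hz1, hz2⟩ := hz
  rw [abs_lt] at hz1 hz2
  simp only [Complex.sub_re, Complex.sub_im] at h1 h2 h3 h5
  refine (h7 q e a (p.g j) hq0 hq2 he0 he hn).1 z ?_ ?_ ?_ ?_ <;>
    simp only [Complex.sub_re, Complex.sub_im] <;> linarith only [hs, h1, h2, h3, h5, hz1.1, hz1.2, hz2.1, hz2.2]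

/-- a disc outside of the container -/
theorem avoid_out (h5 : C5Stmt) {q s : ℝ} {G : Layout} (p : Packing q G)
    (hG : G.OK) (hq : Small q G) (hs : 3 * q ≤ s) (i : Cell G) {w : ℂ}
    (h : ∀ z, Sq q w z → z ∉ G.cont q) : 1 / 2 - s ≤ ‖w - ctr (p.g i)‖ := by
  by_contra hcon
  rw [not_le] at hcon
  obtain ⟨z, hz, hz'⟩ := h5 q G p hG hq i w (disc_core hs hcon)
  exact h z hz hz'

/-- a point of a piece in the coordinates of its centre -/
theorem img_coord (h3 : S3Stmt) {q : ℝ} (hq0 : 0 < q) (hq1 : q ≤ 1 / 1000) {g : Motion} {s : Shp}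
    {z : ℂ} (hz : z ∈ img q g s) : ∃ α β : ℝ, z = ctr g + g.u * (α + β * Complex.I) ∧
      |α| ≤ 1 / 2 + q ∧ |β| ≤ 1 / 2 + q := by
  obtain ⟨w, hw, rfl⟩ := hz
  obtain ⟨h1, h2, h4, h5⟩ := (h3 q s hq0 hq1).2.1 hw
  refine ⟨w.re - 1 / 2, w.im - 1 / 2, ?_, ?_, ?_⟩
  · unfold ctr Motion.app
    have : w = (⟨1 / 2, 1 / 2⟩ : ℂ) + (((w.re - 1 / 2 : ℝ) : ℂ) + ((w.im - 1 / 2 : ℝ) : ℂ) * Complex.I) := by
      apply Complex.ext <;> simp
    conv_lhs => rw [this]
    ring
  · rw [abs_le]
    constructor <;> linarith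
  · rw [abs_le]
    constructor <;> linarith only [hq0, h4, h5]

/-- the order of the cells -/
def key {G : Layout} : Cell G → ℕ
  | .inl p => p.1 + p.2
  | .inr _ => G.M + G.N

/-- the rank of a cell -/
def rank {G : Layout} (i : Cell G) : ℕ := (Finset.univ.filter fun j : Cell G => key j < key i).card

theorem rank_lt {G : Layout} {i j : Cell G} (h : key j < key i) : rank j < rank i := by
  unfold rank
  refine Finset.card_lt_card ⟨fun l hl => ?_, fun hsub => ?_⟩
  · rw [Finset.mem_filter] at hl ⊢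
    exact ⟨hl.1, hl.2.trans h⟩
  · have := hsub (Finset.mem_filter.2 ⟨Finset.mem_univ j, h⟩)
    exact absurd (Finset.mem_filter.1 this).2 (lt_irrefl _)

theorem rank_lt_K {G : Layout} (i : Cell G) : rank i < G.K := by
  unfold rank Layout.K
  refine Finset.card_lt_card ⟨Finset.filter_subset _ _, fun hsub => ?_⟩
  have := hsub (Finset.mem_univ i)
  exact absurd (Finset.mem_filter.1 this).2 (lt_irrefl _)

theorem e_small {q : ℝ} {G : Layout} (hq : Small q G) {n : ℕ} (hn : n ≤ G.K) :
    128 ^ n * (4 * q) ≤ 1 / 1000000 := by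
  have h1 := hq.pos
  have h2 := hq.small
  have h3 : (128 : ℝ) ^ n = 2 ^ (7 * n) := by
    rw [pow_mul]
    norm_num
  have h4 : (2 : ℝ) ^ (7 * n) ≤ 2 ^ (8 * G.K) := pow_le_pow_right₀ (by norm_num) (by omega)
  have h5 : (2 : ℝ) ^ (8 * G.K + 60) = 2 ^ (8 * G.K) * 2 ^ 60 := pow_add _ _ _
  rw [h5] at h2
  have h6 : q * 2 ^ (7 * n) ≤ q * 2 ^ (8 * G.K) := mul_le_mul_of_nonneg_left h4 h1.le
  rw [h3]
  norm_num at h2 ⊢
  linarith

theorem c3_main (h1 : C1Stmt) (h2 : C2Stmt) (h4 : C4Stmt) (h5 : C5Stmt) (h6 : C6Stmt)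
    (h7 : C7Stmt) (h8 : C8Stmt) (hS3 : S3Stmt) (hS4 : S4Stmt) {q : ℝ} {G : Layout}
    (p : Packing q G) (hG : G.OK) (hq : Small q G) : ∀ (n : ℕ) (i : Cell G), rank i = n →
      ∃ j, NearCell (128 ^ (n + 1) * (4 * q)) (corner i) (p.g j) := by
  intro n
  induction n using Nat.strong_induction_on with
  | _ n ih =>
  intro i hi
  obtain ⟨hq1, -, hq2⟩ := q_le hq
  have hq0 := hq.pos
  obtain ⟨-, hS2, -, hS4', -, -⟩ := hS4 q G hG hq
  set e : ℝ := 128 ^ n * (4 * q) with he
  have hnK : n < G.K := hi ▸ rank_lt_K i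
  have he1 : e ≤ 1 / 1000000 := e_small hq hnK.le
  have he2 : 4 * q ≤ e := by
    have : (1 : ℝ) ≤ 128 ^ n := one_le_pow₀ (by norm_num)
    nlinarith only [hq0, this]
  have he0 : 0 ≤ e := by linarith only [hq0, he2]
  have hen : 128 ^ (n + 1) * (4 * q) = 128 * e := by rw [he, pow_succ]; ring
  rw [hen]
  have hprev : ∀ i' : Cell G, key i' < key i → ∃ j, NearCell e (corner i') (p.g j) := by
    intro i' hi'
    have h := rank_lt hi'
    rw [hi] at h
    obtain ⟨j, hj⟩ := ih (rank i') h i' rfl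
    refine ⟨j, NearCell.mono ?_ hj⟩
    exact mul_le_mul_of_nonneg_right (pow_le_pow_right₀ (by norm_num) h) (by linarith only [hq0])
  set s : ℝ := 3 * q + 2 * e with hs
  have hs0 : 0 < s := by linarith only [hq0, he2]
  have hs1 : s ≤ 1 / 1000 := by linarith only [he1, he2]
  have hs40 : 40 * s ≤ 128 * e := by linarith
  have hq4 : q ^ 4 ≤ q := by
    have : q ^ 4 ≤ q ^ 1 := pow_le_pow_of_le_one hq0.le (by linarith) (by norm_num)
    simpa using this
  have hN : 1 ≤ G.N := by unfold Layout.N; omega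
  -- the first piece at the corner
  have hfirst : ∀ a : ℂ, (∀ z : ℂ, q + 2 * e < (z - a).re → (z - a).re < 2 * q + 2 * e →
      q + 2 * e < (z - a).im → (z - a).im < 2 * q + 2 * e → z ∈ G.cont q) →
      ∃ (j : Cell G) (z : ℂ) (α β : ℝ), z ∈ img q (p.g j) (G.shp j) ∧ q + 2 * e < (z - a).re ∧
        (z - a).re < 2 * q + 2 * e ∧ q + 2 * e < (z - a).im ∧ (z - a).im < 2 * q + 2 * e ∧
        z - a = (ctr (p.g j) - a) + (p.g j).u * (α + β * Complex.I) ∧ |α| ≤ 1 / 2 + s ∧
        |β| ≤ 1 / 2 + s := by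
    intro a ha
    have hb : ∀ z : ℂ, Sq q (a + ⟨3 / 2 * q + 2 * e, 3 / 2 * q + 2 * e⟩) z →
        q + 2 * e < (z - a).re ∧ (z - a).re < 2 * q + 2 * e ∧
        q + 2 * e < (z - a).im ∧ (z - a).im < 2 * q + 2 * e := by
      rintro z ⟨hz1, hz2⟩
      simp only [Complex.add_re, Complex.add_im] at hz1 hz2
      rw [abs_lt] at hz1 hz2
      simp only [Complex.sub_re, Complex.sub_im]
      refine ⟨?_, ?_, ?_, ?_⟩ <;> linarith only [hz1.1, hz1.2, hz2.1, hz2.2]
    obtain ⟨j, z, hz, hzi⟩ := h6 q G p hG hq (a + ⟨3 / 2 * q + 2 * e, 3 / 2 * q + 2 * e⟩) (by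
      intro z hz
      obtain ⟨b1, b2, b3, b4⟩ := hb z hz
      exact ha z b1 b2 b3 b4)
    obtain ⟨α, β, hα, hα1, hβ1⟩ := img_coord hS3 hq0 hq1 hzi
    obtain ⟨b1, b2, b3, b4⟩ := hb z hz
    refine ⟨j, z, α, β, hzi, b1, b2, b3, b4, ?_, by linarith only [he2, hα1, b1, b2], by linarith only [he2, hβ1, b1, b2]⟩
    conv_lhs => rw [hα]
    ring
  -- from the result of C1 or C2 to `NearCell`
  have hfin : ∀ (a : ℂ) (j : Cell G), |(ctr (p.g j) - a).re - 1 / 2| ≤ 40 * s →
      |(ctr (p.g j) - a).im - 1 / 2| ≤ 40 * s →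
      (∃ k : ℕ, k < 4 ∧ ‖(p.g j).u - Complex.I ^ k‖ ≤ 40 * s) →
      ∃ j, NearCell (128 * e) a (p.g j) := by
    rintro a j b1 b2 ⟨k, hk, b3⟩
    exact ⟨j, b1.trans hs40, b2.trans hs40, k, hk, b3.trans hs40⟩
  -- pieces in earlier cells are different
  have hne : ∀ (a : ℂ) (j j' : Cell G) (z : ℂ), z ∈ img q (p.g j) (G.shp j) →
      NearCell e a (p.g j') → (1 + (q + 2 * e) < (z - a).re ∨ 1 + (q + 2 * e) < (z - a).im) →
      j ≠ j' := by
    rintro a j j' z hz hn hor rfl
    obtain ⟨-, b1, -, b2⟩ := (h7 q e a (p.g j) hq0 hq2 he0 (by linarith only [he1]) hn).2 _ z hz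
    rcases hor with h | h <;> linarith only [b1, h, b2]
  rcases i with ⟨c, r⟩ | c
  · -- array
    set a : ℂ := corner (.inl (c, r) : Cell G) with ha
    have hare : a.re = (c : ℕ) := rfl
    have haim : a.im = (r : ℕ) := rfl
    have hcM : ((c : ℕ) : ℝ) + 1 ≤ G.M := by exact_mod_cast c.2
    have hrN : ((r : ℕ) : ℝ) + 1 ≤ G.N := by exact_mod_cast r.2
    have hc0 : (0 : ℝ) ≤ (c : ℕ) := Nat.cast_nonneg _
    have hr0 : (0 : ℝ) ≤ (r : ℕ) := Nat.cast_nonneg _
    obtain ⟨j, z, α, β, hz, b1, b2, b3, b4, hzα, hα, hβ⟩ := hfirst a (by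
      intro z b1 b2 b3 b4
      simp only [Complex.sub_re, Complex.sub_im, hare, haim] at b1 b2 b3 b4
      refine hS4' z ?_ ?_ ?_ ?_ <;> linarith)
    have hC1 := h1 s (ctr (p.g j) - a) (p.g j).u (z - a) α β hs0 hs1 (p.g j).unit
      (by
        intro w w1 w2 w3 w4
        have hw : w - (ctr (p.g j) - a) = (w + a) - ctr (p.g j) := by ring
        rw [hw]
        by_cases hc : (c : ℕ) = 0
        · refine avoid_out h5 p hG hq (by linarith only [he2, b1, b2]) j fun z' hz' hzc => ?_
          have := (hS2 z' hzc).1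
          obtain ⟨d1, -⟩ := hz'
          rw [abs_lt, Complex.add_re, hare, hc] at d1
          push_cast at d1
          linarith only [he2, hq4, w2, this, d1, d1.2]
        · obtain ⟨j', hj'⟩ := hprev (.inl (⟨c - 1, by omega⟩, r)) (by
            simp only [key]
            omega)
          have hcr : ((((c : ℕ) - 1 : ℕ)) : ℝ) = (c : ℕ) - 1 := by
            rw [Nat.cast_sub (by omega)]
            simp
          have hre : (corner (.inl (⟨c - 1, by omega⟩, r) : Cell G)).re = (c : ℕ) - 1 := hcr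
          have him : (corner (.inl (⟨c - 1, by omega⟩, r) : Cell G)).im = (r : ℕ) := rfl
          refine avoid_cell h4 h7 p hG hq he0 (by linarith only [he1]) hs (hne _ j j' z hz hj' ?_) hj' ?_ ?_ ?_ ?_
          · left
            rw [Complex.sub_re, hare] at b1
            rw [Complex.sub_re, hre]
            linarith only [b1]
          all_goals
            simp only [Complex.sub_re, Complex.sub_im, Complex.add_re, Complex.add_im, hre, him,
              hare, haim]
            linarith only [w1, w2, w3, w4])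
      (by
        intro w w1 w2 w3 w4
        have hw : w - (ctr (p.g j) - a) = (w + a) - ctr (p.g j) := by ring
        rw [hw]
        by_cases hr : (r : ℕ) = 0
        · refine avoid_out h5 p hG hq (by linarith only [he2, b1, b2]) j fun z' hz' hzc => ?_
          have := (hS2 z' hzc).2.2
          obtain ⟨-, d1⟩ := hz'
          rw [abs_lt, Complex.add_im, haim, hr] at d1
          push_cast at d1
          linarith only [he2, w4, this, d1, d1.2]
        · obtain ⟨j', hj'⟩ := hprev (.inl (c, ⟨r - 1, by omega⟩)) (by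
            simp only [key]
            omega)
          have hcr : ((((r : ℕ) - 1 : ℕ)) : ℝ) = (r : ℕ) - 1 := by
            rw [Nat.cast_sub (by omega)]
            simp
          have hre : (corner (.inl (c, ⟨r - 1, by omega⟩) : Cell G)).re = (c : ℕ) := rfl
          have him : (corner (.inl (c, ⟨r - 1, by omega⟩) : Cell G)).im = (r : ℕ) - 1 := hcr
          refine avoid_cell h4 h7 p hG hq he0 (by linarith only [he1]) hs (hne _ j j' z hz hj' ?_) hj' ?_ ?_ ?_ ?_
          · right
            rw [Complex.sub_im, haim] at b3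
            rw [Complex.sub_im, him]
            linarith only [b3]
          all_goals
            simp only [Complex.sub_re, Complex.sub_im, Complex.add_re, Complex.add_im, hre, him,
              hare, haim]
            linarith only [w1, w2, w3, w4])
      (by
        intro w w1 w2 w3 w4
        have hw : w - (ctr (p.g j) - a) = (w + a) - ctr (p.g j) := by ring
        rw [hw]
        by_cases hc : (c : ℕ) = 0
        · refine avoid_out h5 p hG hq (by linarith only [he2, b1, b2]) j fun z' hz' hzc => ?_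
          have := (hS2 z' hzc).1
          obtain ⟨d1, -⟩ := hz'
          rw [abs_lt, Complex.add_re, hare, hc] at d1
          push_cast at d1
          linarith only [he2, hq4, w2, this, d1, d1.2]
        by_cases hr : (r : ℕ) = 0
        · refine avoid_out h5 p hG hq (by linarith only [he2, b1, b2]) j fun z' hz' hzc => ?_
          have := (hS2 z' hzc).2.2
          obtain ⟨-, d1⟩ := hz'
          rw [abs_lt, Complex.add_im, haim, hr] at d1
          push_cast at d1
          linarith only [he2, w4, this, d1, d1.2]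
        · obtain ⟨j', hj'⟩ := hprev (.inl (⟨c - 1, by omega⟩, ⟨r - 1, by omega⟩)) (by
            simp only [key]
            omega)
          have hcr : ((((r : ℕ) - 1 : ℕ)) : ℝ) = (r : ℕ) - 1 := by
            rw [Nat.cast_sub (by omega)]
            simp
          have hcc : ((((c : ℕ) - 1 : ℕ)) : ℝ) = (c : ℕ) - 1 := by
            rw [Nat.cast_sub (by omega)]
            simp
          have hre : (corner (.inl (⟨c - 1, by omega⟩, ⟨r - 1, by omega⟩) : Cell G)).re =
            (c : ℕ) - 1 := hcc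
          have him : (corner (.inl (⟨c - 1, by omega⟩, ⟨r - 1, by omega⟩) : Cell G)).im =
            (r : ℕ) - 1 := hcr
          refine avoid_cell h4 h7 p hG hq he0 (by linarith only [he1]) hs (hne _ j j' z hz hj' ?_) hj' ?_ ?_ ?_ ?_
          · right
            rw [Complex.sub_im, haim] at b3
            rw [Complex.sub_im, him]
            linarith only [b3]
          all_goals
            simp only [Complex.sub_re, Complex.sub_im, Complex.add_re, Complex.add_im, hre, him,
              hare, haim]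
            linarith only [w1, w2, w3, w4])
      (by rw [abs_le]; constructor <;> linarith only [he2, b1, b2]) (by rw [abs_le]; constructor <;> linarith only [he2, b1, b2, b3, b4])
      hzα hα hβ
    exact hfin a j hC1.1 hC1.2.1 hC1.2.2
  · -- rooms
    obtain ⟨⟨c, hc⟩, hL⟩ := c
    set a : ℂ := corner (.inr ⟨⟨c, hc⟩, hL⟩ : Cell G) with ha
    have hare : a.re = (c : ℝ) + 1 / 2 := rfl
    have haim : a.im = G.N := rfl
    have ha' : a = ⟨(c : ℝ) + 1 / 2, G.N⟩ := rfl
    obtain ⟨σ, hσ⟩ : ∃ σ, G.top c = .portL σ := by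
      cases h : G.top c with
      | flat a o => simp only [h] at hL; simp [Top.isL] at hL
      | portL σ => exact ⟨σ, rfl⟩
      | portR σ => simp only [h] at hL; simp [Top.isL] at hL
    obtain ⟨hc1, -⟩ := hG.portL c σ hc hσ
    obtain ⟨j, z, α, β, hz, b1, b2, b3, b4, hzα, hα, hβ⟩ := hfirst a (by
      intro z b1 b2 b3 b4
      have := (h8 q (2 * q) G c hG hq hc hL le_rfl (by linarith only [he1, he2])).2 z
      rw [← ha'] at this
      exact this (by linarith only [he2, b1, b2]) (by linarith only [he1, he2, b2]) (by linarith only [he2, b1, b2, b3]) (by linarith only [he1, he2, b4]))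
    have hNr : (((G.N - 1 : ℕ)) : ℝ) = G.N - 1 := by
      rw [Nat.cast_sub hN]
      simp
    obtain ⟨j₁, hj₁⟩ := hprev (.inl (⟨c, hc⟩, ⟨G.N - 1, by omega⟩)) (by
      simp only [key]
      omega)
    obtain ⟨j₂, hj₂⟩ := hprev (.inl (⟨c + 1, hc1⟩, ⟨G.N - 1, by omega⟩)) (by
      simp only [key]
      omega)
    have hre1 : (corner (.inl (⟨c, hc⟩, ⟨G.N - 1, by omega⟩) : Cell G)).re = (c : ℝ) := rfl
    have him1 : (corner (.inl (⟨c, hc⟩, ⟨G.N - 1, by omega⟩) : Cell G)).im = G.N - 1 := hNr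
    have hre2 : (corner (.inl (⟨c + 1, hc1⟩, ⟨G.N - 1, by omega⟩) : Cell G)).re = (c : ℝ) + 1 := by
      have : (corner (.inl (⟨c + 1, hc1⟩, ⟨G.N - 1, by omega⟩) : Cell G)).re =
        (((c + 1 : ℕ)) : ℝ) := rfl
      rw [this]
      push_cast
      ring
    have him2 : (corner (.inl (⟨c + 1, hc1⟩, ⟨G.N - 1, by omega⟩) : Cell G)).im = G.N - 1 := hNr
    have hC2 := h2 s (ctr (p.g j) - a) (p.g j).u (z - a) α β hs0 hs1 (p.g j).unit
      (by
        intro w w1 w2 w3 w4
        have hw : w - (ctr (p.g j) - a) = (w + a) - ctr (p.g j) := by ring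
        rw [hw]
        refine avoid_out h5 p hG hq (by linarith only [he2, b1, b2]) j fun z' hz' hzc => ?_
        have hx := (h8 q (s - q / 2) G c hG hq hc hL (by linarith only [he2, b1, b2]) (by linarith only [he1, he2])).1 z'
        rw [← ha'] at hx
        obtain ⟨d1, d2⟩ := hz'
        rw [abs_lt, Complex.add_re] at d1
        rw [abs_lt, Complex.add_im] at d2
        simp only [Complex.sub_re, Complex.sub_im] at hx
        exact hx (by linarith only [w1, d1.1]) (by linarith only [w2, d1.2]) (by linarith only [w3, d2.1]) hzc)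
      (by
        intro w w1 w2 w3 w4
        have hw : w - (ctr (p.g j) - a) = (w + a) - ctr (p.g j) := by ring
        rw [hw]
        refine avoid_cell h4 h7 p hG hq he0 (by linarith only [he1]) hs (hne _ j j₁ z hz hj₁ ?_) hj₁ ?_ ?_ ?_ ?_
        · right
          rw [Complex.sub_im, haim] at b3
          rw [Complex.sub_im, him1]
          linarith only [b3]
        all_goals
          simp only [Complex.sub_re, Complex.sub_im, Complex.add_re, Complex.add_im, hre1, him1,
            hare, haim]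
          linarith only [w1, w2, w3, w4])
      (by
        intro w w1 w2 w3 w4
        have hw : w - (ctr (p.g j) - a) = (w + a) - ctr (p.g j) := by ring
        rw [hw]
        refine avoid_cell h4 h7 p hG hq he0 (by linarith only [he1]) hs (hne _ j j₂ z hz hj₂ ?_) hj₂ ?_ ?_ ?_ ?_
        · right
          rw [Complex.sub_im, haim] at b3
          rw [Complex.sub_im, him2]
          linarith only [b3]
        all_goals
          simp only [Complex.sub_re, Complex.sub_im, Complex.add_re, Complex.add_im, hre2, him2,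
            hare, haim]
          linarith only [w1, w2, w3, w4])
      (by rw [abs_le]; constructor <;> linarith only [he2, b1, b2]) (by rw [abs_le]; constructor <;> linarith only [he2, b1, b2, b3, b4])
      hzα hα hβ
    exact hfin a j hC2.1 hC2.2.1 hC2.2.2

/-- the corners are far from each other -/
theorem corner_inj {G : Layout} {i j : Cell G} (h1 : |(corner i - corner j).re| < 1 / 2)
    (h2 : |(corner i - corner j).im| < 1 / 2) : i = j := by
  rw [abs_lt, Complex.sub_re] at h1
  rw [abs_lt, Complex.sub_im] at h2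
  rcases i with ⟨c, r⟩ | c <;> rcases j with ⟨c', r'⟩ | c'
  · simp only [corner] at h1 h2
    have e1 : (c : ℕ) = (c' : ℕ) := by
      have a1 : ((c : ℕ) : ℝ) < (c' : ℕ) + 1 := by linarith only [h1.2]
      have a2 : ((c' : ℕ) : ℝ) < (c : ℕ) + 1 := by linarith only [h1.1]
      have a3 : (c : ℕ) < (c' : ℕ) + 1 := by exact_mod_cast a1
      have a4 : (c' : ℕ) < (c : ℕ) + 1 := by exact_mod_cast a2
      omega
    have e2 : (r : ℕ) = (r' : ℕ) := by
      have a1 : ((r : ℕ) : ℝ) < (r' : ℕ) + 1 := by linarith only [h2.2]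
      have a2 : ((r' : ℕ) : ℝ) < (r : ℕ) + 1 := by linarith only [h2.1]
      have a3 : (r : ℕ) < (r' : ℕ) + 1 := by exact_mod_cast a1
      have a4 : (r' : ℕ) < (r : ℕ) + 1 := by exact_mod_cast a2
      omega
    rw [Fin.ext e1, Fin.ext e2]
  · exfalso
    simp only [corner] at h2
    have a1 : ((r : ℕ) : ℝ) + 1 ≤ G.N := by exact_mod_cast r.2
    linarith only [a1, h2.1]
  · exfalso
    simp only [corner] at h2
    have a1 : ((r' : ℕ) : ℝ) + 1 ≤ G.N := by exact_mod_cast r'.2
    linarith only [a1, h2.2]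
  · simp only [corner] at h1
    have e1 : (c.1 : ℕ) = (c'.1 : ℕ) := by
      have a1 : ((c.1 : ℕ) : ℝ) < (c'.1 : ℕ) + 1 := by linarith only [h1.2]
      have a2 : ((c'.1 : ℕ) : ℝ) < (c.1 : ℕ) + 1 := by linarith only [h1.1]
      have a3 : (c.1 : ℕ) < (c'.1 : ℕ) + 1 := by exact_mod_cast a1
      have a4 : (c'.1 : ℕ) < (c.1 : ℕ) + 1 := by exact_mod_cast a2
      omega
    congr 1
    exact Subtype.ext (Fin.ext e1)

theorem c3 (h1 : C1Stmt) (h2 : C2Stmt) (h4 : C4Stmt) (h5 : C5Stmt) (h6 : C6Stmt)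
    (h7 : C7Stmt) (h8 : C8Stmt) (hS3 : S3Stmt) (hS4 : S4Stmt) : C3Stmt := by
  intro q G p hG hq
  have hex : ∀ i : Cell G, ∃ j, NearCell (1 / 1024) (corner i) (p.g j) := by
    intro i
    obtain ⟨j, hj⟩ := c3_main h1 h2 h4 h5 h6 h7 h8 hS3 hS4 p hG hq _ i rfl
    refine ⟨j, NearCell.mono ?_ hj⟩
    have := e_small hq (n := rank i + 1) (rank_lt_K i)
    linarith only [this]
  choose f hf using hex
  have hinj : Function.Injective f := by
    intro i i' hii
    obtain ⟨a1, a2, -⟩ := hf i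
    obtain ⟨b1, b2, -⟩ := hf i'
    rw [← hii] at b1 b2
    rw [abs_le, Complex.sub_re] at a1 b1
    rw [abs_le, Complex.sub_im] at a2 b2
    apply corner_inj
    · rw [abs_lt, Complex.sub_re]
      constructor <;> linarith only [a1.1, a1.2, b1.1, b1.2]
    · rw [abs_lt, Complex.sub_im]
      constructor <;> linarith only [a2.1, a2.2, b2.1, b2.2]
  exact ⟨Equiv.ofBijective f (Finite.injective_iff_bijective.1 hinj), hf⟩

end Pool.Agent.Helper51_Pack
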