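import Pool.Agent.Helper2_Pack.Stmts3
import Pool.Agent.Helper2_Pack.S1
import Pool.Agent.Helper2_Pack.S2

/-!
# PACK modules C4, C5, C6
-/

namespace Pool.Agent.Helper51_Pack

open MeasureTheory Pool.Agent.Helper2_Pack

theorem volume_Sq {q : ℝ} (hq : 0 < q) (w : ℂ) : volume {z | Sq q w z} = ENNReal.ofReal (q ^ 2) := by
  have h1 : {z | Sq q w z} = Complex.measurableEquivRealProd ⁻¹'
      (Set.Ioo (w.re - q / 2) (w.re + q / 2) ×ˢ Set.Ioo (w.im - q / 2) (w.im + q / 2)) := by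
    ext z
    simp only [Sq, Set.mem_preimage, Set.mem_prod, Set.mem_Ioo, Complex.measurableEquivRealProd_apply,
      abs_lt]
    constructor
    · rintro ⟨⟨h1, h2⟩, h3, h4⟩
      exact ⟨⟨by linarith, by linarith⟩, by linarith, by linarith⟩
    · rintro ⟨⟨h1, h2⟩, h3, h4⟩
      exact ⟨⟨by linarith, by linarith⟩, by linarith, by linarith⟩
  rw [h1, Complex.volume_preserving_equiv_real_prod.measure_preimage
    (measurableSet_Ioo.prod measurableSet_Ioo).nullMeasurableSet, Measure.volume_eq_prod,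
    Measure.prod_prod, Real.volume_Ioo, Real.volume_Ioo, ← ENNReal.ofReal_mul (by linarith)]
  congr 1
  ring

theorem q_le {q : ℝ} {G : Layout} (h : Small q G) : q ≤ 1 / 1000 ∧ 64 * G.K * q < 1 ∧
    q ≤ 1 / 2 ^ 20 := by
  have h1 := h.pos
  have h2 := h.small
  have h3 : (1 : ℝ) ≤ 2 ^ (8 * G.K) := one_le_pow₀ (by norm_num)
  have h4 : (2 : ℝ) ^ (8 * G.K + 60) = 2 ^ (8 * G.K) * 2 ^ 60 := pow_add _ _ _
  have h5 : (G.K : ℝ) ≤ 2 ^ (8 * G.K) := by
    have : G.K ≤ 2 ^ (8 * G.K) := by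
      have h6 : G.K < 2 ^ G.K := Nat.lt_two_pow_self
      have h7 : 2 ^ G.K ≤ 2 ^ (8 * G.K) := Nat.pow_le_pow_right (by norm_num) (by omega)
      omega
    exact_mod_cast this
  rw [h4] at h2
  have h8 : q * 2 ^ 60 ≤ 1 := by
    have : q * 2 ^ 60 * 1 ≤ q * 2 ^ 60 * 2 ^ (8 * G.K) :=
      mul_le_mul_of_nonneg_left h3 (by positivity)
    nlinarith
  have h9 : q * G.K * 2 ^ 60 ≤ 1 := by
    have : q * 2 ^ 60 * G.K ≤ q * 2 ^ 60 * 2 ^ (8 * G.K) :=
      mul_le_mul_of_nonneg_left h5 (by positivity)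
    nlinarith
  refine ⟨?_, ?_, ?_⟩
  · norm_num at h8 ⊢
    linarith
  · have : (0 : ℝ) ≤ q * G.K := by positivity
    norm_num at h9 ⊢
    linarith
  · norm_num at h8 ⊢
    linarith

/-- the part of the core which is not covered by the piece -/
def bad (q : ℝ) (g : Motion) (s : Shp) : Set ℂ :=
  g.app '' ({z : ℂ | 2 * q ≤ z.re ∧ z.re ≤ 1 - 2 * q ∧ 2 * q ≤ z.im ∧ z.im ≤ 1 - 2 * q} \ s.reg q)

theorem volume_bad (h3 : S3Stmt) {q : ℝ} (hq : 0 < q) (hq1 : q ≤ 1 / 1000) (g : Motion) (s : Shp) :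
    volume (bad q g s) ≤ ENNReal.ofReal (4 * q ^ 3) := by
  unfold bad
  rw [(s2 g _).2.2.2.1]
  exact (h3 q s hq hq1).2.2

theorem core_cases {q : ℝ} {g : Motion} {s : Shp} {z : ℂ} (h : InCore q g z) :
    z ∈ bad q g s ∨ z ∈ img q g s := by
  by_cases h1 : (starRingEnd ℂ g.u) * (z - g.v) ∈ s.reg q
  · right
    exact ((s2 g (s.reg q)).2.2.2.2 z).2 h1
  · left
    exact ((s2 g _).2.2.2.2 z).2 ⟨h, h1⟩

theorem frontier_img (h3 : S3Stmt) {q : ℝ} (hq : 0 < q) (hq1 : q ≤ 1 / 1000) (g : Motion) (s : Shp) :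
    volume (frontier (img q g s)) = 0 := by
  unfold img
  rw [(s2 g _).2.2.1, (s2 g _).2.2.2.1]
  exact (s1 (s.sh q) (h3 q s hq hq1).1).2.2.2

theorem img_cases {q : ℝ} {g : Motion} {s : Shp} {z : ℂ} (h : z ∈ img q g s) :
    z ∈ frontier (img q g s) ∨ z ∈ interior (img q g s) := by
  by_cases h1 : z ∈ interior (img q g s)
  · exact Or.inr h1
  · exact Or.inl ⟨subset_closure h, h1⟩

theorem c4 (h3 : S3Stmt) : C4Stmt := by
  rintro q G p - hq i j hij w ⟨hi, hj⟩
  obtain ⟨hq1, -, -⟩ := q_le hq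
  have hq0 := hq.pos
  have hsub : {z | Sq q w z} ⊆ (bad q (p.g i) (G.shp i) ∪ bad q (p.g j) (G.shp j)) ∪
      (frontier (img q (p.g i) (G.shp i)) ∪ frontier (img q (p.g j) (G.shp j))) := by
    intro z hz
    rcases core_cases (s := G.shp i) (hi z hz) with h | h
    · exact Or.inl (Or.inl h)
    rcases core_cases (s := G.shp j) (hj z hz) with h' | h'
    · exact Or.inl (Or.inr h')
    rcases img_cases h with h | h
    · exact Or.inr (Or.inl h)
    rcases img_cases h' with h' | h'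
    · exact Or.inr (Or.inr h')
    exact absurd h' (Set.disjoint_left.1 (p.disj i j hij) h)
  have h1 : volume {z | Sq q w z} ≤ (ENNReal.ofReal (4 * q ^ 3) + ENNReal.ofReal (4 * q ^ 3)) +
      (0 + 0) := by
    refine (measure_mono hsub).trans ((measure_union_le _ _).trans (add_le_add ?_ ?_))
    · exact (measure_union_le _ _).trans (add_le_add (volume_bad h3 hq0 hq1 _ _)
        (volume_bad h3 hq0 hq1 _ _))
    · refine (measure_union_le _ _).trans (add_le_add ?_ ?_)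
      · rw [frontier_img h3 hq0 hq1]
      · rw [frontier_img h3 hq0 hq1]
  rw [volume_Sq hq0, add_zero, add_zero, ← ENNReal.ofReal_add (by positivity) (by positivity),
    ENNReal.ofReal_le_ofReal_iff (by positivity)] at h1
  have : q ^ 2 * 1 ≤ q ^ 2 * (8 * q) := by nlinarith
  have := le_of_mul_le_mul_left this (by positivity)
  linarith

theorem c5 (h3 : S3Stmt) : C5Stmt := by
  rintro q G p - hq i w hi
  obtain ⟨hq1, -, -⟩ := q_le hq
  have hq0 := hq.pos
  by_contra hcon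
  have hsub : {z | Sq q w z} ⊆ bad q (p.g i) (G.shp i) := by
    intro z hz
    rcases core_cases (s := G.shp i) (hi z hz) with h | h
    · exact h
    · exact absurd ⟨z, hz, p.sub i h⟩ hcon
  have h1 := (measure_mono hsub).trans (volume_bad h3 hq0 hq1 _ _)
  rw [volume_Sq hq0, ENNReal.ofReal_le_ofReal_iff (by positivity)] at h1
  have : q ^ 2 * 1 ≤ q ^ 2 * (4 * q) := by nlinarith
  have := le_of_mul_le_mul_left this (by positivity)
  linarith

theorem c6 (h2 : A2Stmt) : C6Stmt := by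
  rintro q G p hG hq w hw
  obtain ⟨hq1, hK, -⟩ := q_le hq
  have hq0 := hq.pos
  by_contra hcon
  have hsub : {z | Sq q w z} ⊆ G.cont q \ p.occ := by
    intro z hz
    refine ⟨hw z hz, fun hz' => ?_⟩
    obtain ⟨i, hi⟩ := Set.mem_iUnion.1 hz'
    exact hcon ⟨i, z, hz, hi⟩
  have h1 := (measure_mono hsub).trans (h2 q G p hG hq)
  rw [volume_Sq hq0, ENNReal.ofReal_le_ofReal_iff (by positivity)] at h1
  have : q ^ 2 * 1 ≤ q ^ 2 * (64 * G.K * q) := by nlinarith
  have := le_of_mul_le_mul_left this (by positivity)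
  linarith

end Pool.Agent.Helper51_Pack
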