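import Pool.Agent.Helper51_Pack.C456

/-!
# PACK module C8
-/

namespace Pool.Agent.Helper51_Pack

open MeasureTheory Pool.Agent.Helper2_Pack

theorem tents_le {g B : ℝ} {L : List (ℝ × ℝ)} (hg : g ≤ B) (hL : ∀ d ∈ L, d.2 ≤ B) (x : ℝ) :
    tents g L x ≤ B := by
  induction L with
  | nil => exact hg
  | cons d L ih =>
    unfold tents
    rw [List.foldr_cons]
    refine max_le ?_ (ih fun d' hd' => hL d' (List.mem_cons_of_mem _ hd'))
    have := hL d List.mem_cons_self
    have := abs_nonneg (x - d.1)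
    linarith

theorem le_tents (g : ℝ) (L : List (ℝ × ℝ)) (x : ℝ) : g ≤ tents g L x := by
  induction L with
  | nil => exact le_rfl
  | cons d L ih =>
    unfold tents
    rw [List.foldr_cons]
    exact ih.trans (le_max_right _ _)

theorem locFloor_le {q : ℝ} (hq : 0 < q) (a : Col) (x : ℝ) : locFloor q a x ≤ q := by
  unfold locFloor
  refine tents_le hq.le ?_ x
  intro d hd
  unfold bumps at hd
  obtain ⟨p, -, rfl⟩ := List.mem_map.1 hd
  exact le_rfl

theorem piv_bounds {q : ℝ} (hq : 0 < q) (hq1 : q ≤ 1 / 1000) (σ : Bool) :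
    0 < piv q σ ∧ piv q σ ≤ 2 * q := by
  unfold piv
  cases σ <;> simp only [sg] <;> constructor <;> push_cast <;> nlinarith

theorem c8 (h4 : S4Stmt) : C8Stmt := by
  intro q s G c hG hq hc hL hs hs1
  obtain ⟨hq1, -, -⟩ := q_le hq
  have hq0 := hq.pos
  have hq3 : 0 < q ^ 3 := by positivity
  have hq3' : q ^ 3 ≤ q / 1000000 := by
    have : q ^ 3 = q * (q * q) := by ring
    rw [this]
    have : q * q ≤ 1 / 1000 * (1 / 1000) := mul_le_mul hq1 hq1 hq0.le (by norm_num)
    nlinarith
  obtain ⟨σ, hσ⟩ : ∃ σ, G.top c = .portL σ := by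
    cases h : G.top c with
    | flat a o => rw [h] at hL; simp [Top.isL] at hL
    | portL σ => exact ⟨σ, rfl⟩
    | portR σ => rw [h] at hL; simp [Top.isL] at hL
  obtain ⟨hc1, hσ1⟩ := hG.portL c σ hc hσ
  obtain ⟨-, -, -, -, h5, h6⟩ := h4 q G hG hq
  have hN : (1 : ℝ) ≤ G.N := by
    have : 1 ≤ G.N := by unfold Layout.N; omega
    exact_mod_cast this
  refine ⟨?_, ?_⟩
  · intro z hz1 hz2 hz3 hz
    simp only [Complex.sub_re, Complex.sub_im] at hz1 hz2 hz3
    have h7 := (h5 z hz c hc (by linarith) (by linarith)).2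
    have h8 : locCeil q (G.top c) (z.re - c) < 2 * q := by
      rw [hσ]
      unfold locCeil
      refine max_lt (max_lt ?_ ?_) ?_
      · have : q ^ 3 * min 1 ((z.re - c) / (4 * q ^ 3)) ≤ q ^ 3 * 1 :=
          mul_le_mul_of_nonneg_left (min_le_left _ _) hq3.le
        linarith
      · refine lt_of_le_of_lt (tents_le (B := q + 2 * q ^ 3) (by linarith) ?_ _) (by linarith)
        intro d hd
        obtain ⟨p, -, rfl⟩ := List.mem_map.1 hd
        exact le_rfl
      · refine lt_of_le_of_lt (min_le_right _ _) ?_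
        have h9 : (z.re - c - 1 / 2 + 2 * q ^ 3) / q ^ 3 ≤ 0 :=
          div_nonpos_of_nonpos_of_nonneg (by linarith) hq3.le
        linarith
    linarith
  · intro z hz1 hz2 hz3 hz4
    simp only [Complex.sub_re, Complex.sub_im] at hz1 hz2 hz3 hz4
    obtain ⟨hp0, hp1⟩ := piv_bounds hq0 hq1 σ
    by_cases hzc : z.re ≤ c + 1
    · refine h6 z c hc (by linarith) hzc ((locFloor_le hq0 _ _).trans (by linarith)) ?_
      have h8 : 1 ≤ locCeil q (G.top c) (z.re - c) := by
        rw [hσ]
        unfold locCeil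
        refine le_trans ?_ (le_max_right _ _)
        refine le_min (by linarith) ?_
        have h9 : (2 : ℝ) ≤ (z.re - c - 1 / 2 + 2 * q ^ 3) / q ^ 3 := by
          rw [le_div_iff₀ hq3]
          linarith
        linarith
      linarith
    · push Not at hzc
      have hc' : (((c + 1 : ℕ)) : ℝ) = (c : ℝ) + 1 := by push_cast; ring
      refine h6 z (c + 1) hc1 (by rw [hc']; exact hzc.le) (by rw [hc']; linarith)
        ((locFloor_le hq0 _ _).trans (by linarith)) ?_
      have h8 : 1 ≤ locCeil q (G.top (c + 1)) (z.re - ((c + 1 : ℕ) : ℝ)) := by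
        rw [hσ1, hc']
        unfold locCeil
        refine le_trans ?_ (le_max_right _ _)
        refine le_min (le_min (by linarith) ?_) ?_
        · have h9 : (2 : ℝ) ≤ (1 / 2 + 2 * q ^ 3 - (z.re - (c + 1))) / q ^ 3 := by
            rw [le_div_iff₀ hq3]
            linarith
          linarith
        · have h9 : (1 : ℝ) ≤ |z.re - (c + 1) - 4 / 32| / q ^ 3 := by
            rw [le_div_iff₀ hq3, one_mul]
            have : -(z.re - (c + 1) - 4 / 32) ≤ |z.re - (c + 1) - 4 / 32| := neg_le_abs _
            linarith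
          have h10 : 0 ≤ 1 + q ^ 3 - piv q σ := by linarith
          have h11 : (1 + q ^ 3 - piv q σ) * |z.re - (c + 1) - 4 / 32| / q ^ 3 =
              (1 + q ^ 3 - piv q σ) * (|z.re - (c + 1) - 4 / 32| / q ^ 3) := by ring
          rw [h11]
          have h12 := mul_le_mul_of_nonneg_left h9 h10
          linarith
      linarith

end Pool.Agent.Helper51_Pack
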